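import Mathlib
import Pool.Agent.Lib.MP_f0f309_al.Core

namespace Pool.Agent.Results.MP_f0f309_al.NoOrdering

open Finset

/-- `B` is skew-symmetrizable: `B D` is skew-symmetric for a diagonal matrix `D` with positive
integer entries. -/
def SkewSymmetrizable {n : ℕ} (B : Matrix (Fin n) (Fin n) ℤ) : Prop :=
  ∃ d : Fin n → ℤ, (∀ i, 0 < d i) ∧
    (B * Matrix.diagonal d).transpose = -(B * Matrix.diagonal d)

open Classical in
/-- The GIM determined by the strict linear ordering `r` (`r i j` means that `i` precedes `j`). -/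
noncomputable def gim {n : ℕ} (B : Matrix (Fin n) (Fin n) ℤ) (r : Fin n → Fin n → Prop) :
    Matrix (Fin n) (Fin n) ℤ :=
  fun i j => if r i j then B i j else if i = j then 2 else -B i j

/-- `(i 1, ..., i d)` is a chordless cycle in `B`. -/
def ChordlessCycle {n : ℕ} (B : Matrix (Fin n) (Fin n) ℤ) (d : ℕ) (i : ℕ → Fin n) : Prop :=
  3 ≤ d - 1 ∧ i d = i 1 ∧
  (∀ j ∈ Icc 1 (d - 1), ∀ k ∈ Icc 1 (d - 1), j ≠ k → i j ≠ i k) ∧
  (∀ j ∈ Icc 1 (d - 1), ∀ k ∈ Icc 1 (d - 1), j ≠ k →
    (B (i j) (i k) ≠ 0 ↔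
      ((j : ℤ) - k ≡ 1 [ZMOD ((d : ℤ) - 1)] ∨ (j : ℤ) - k ≡ -1 [ZMOD ((d : ℤ) - 1)])))

/-- The entries `b (i j) (i (j+1))`, `j = 1, ..., d - 1`, all have the same sign. -/
def Oriented {n : ℕ} (B : Matrix (Fin n) (Fin n) ℤ) (d : ℕ) (i : ℕ → Fin n) : Prop :=
  (∀ j ∈ Icc 1 (d - 1), 0 < B (i j) (i (j + 1))) ∨ (∀ j ∈ Icc 1 (d - 1), B (i j) (i (j + 1)) < 0)

/-- The counterexample: a skew-symmetric `9 × 9` matrix with entries `0, 1, -1`. -/
def B0 : Matrix (Fin 9) (Fin 9) ℤ :=
  !![0, -1, 0, 1, 0, 1, 1, -1, -1;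
    1, 0, 1, -1, -1, -1, 1, -1, 1;
    0, -1, 0, 1, 0, 1, -1, 1, -1;
    -1, 1, -1, 0, -1, 0, 1, 1, 1;
    0, 1, 0, 1, 0, 1, -1, -1, -1;
    -1, 1, -1, 0, -1, 0, 1, 1, -1;
    -1, -1, 1, -1, 1, -1, 0, 1, 1;
    1, 1, -1, -1, 1, -1, -1, 0, 1;
    1, -1, 1, -1, 1, 1, -1, -1, 0]

theorem B0_skew : ∀ i j, B0 j i = -B0 i j := by decide

/-- The closed walk `a, b, c, a` as a sequence indexed by `1, 2, 3, 4`. -/
def tri (a b c : Fin 9) : ℕ → Fin 9 := fun j => if j = 2 then b else if j = 3 then c else a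

theorem Icc13 : Icc 1 (4 - 1) = ({1, 2, 3} : Finset ℕ) := by decide

theorem tri_cycle (a b c : Fin 9) (hab : 0 < B0 a b) (hbc : 0 < B0 b c) (hca : 0 < B0 c a) :
    ChordlessCycle B0 4 (tri a b c) ∧ Oriented B0 4 (tri a b c) := by
  have h0 : ∀ x, B0 x x = 0 := by decide
  have nab : a ≠ b := by rintro rfl; simp [h0] at hab
  have nbc : b ≠ c := by rintro rfl; simp [h0] at hbc
  have nca : c ≠ a := by rintro rfl; simp [h0] at hca
  have hba := B0_skew a b
  have hcb := B0_skew b c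
  have hac := B0_skew c a
  refine ⟨⟨by norm_num, by simp [tri], ?_, ?_⟩, Or.inl ?_⟩
  · rw [Icc13]
    intro j hj k hk hjk
    simp only [mem_insert, mem_singleton] at hj hk
    rcases hj with rfl | rfl | rfl <;> rcases hk with rfl | rfl | rfl <;>
      simp_all [tri, eq_comm]
  · rw [Icc13]
    intro j hj k hk hjk
    simp only [mem_insert, mem_singleton] at hj hk
    rcases hj with rfl | rfl | rfl <;> rcases hk with rfl | rfl | rfl <;>
      first
        | exact absurd rfl hjk
        | (refine iff_of_true ?_ (by decide); simp only [tri]; norm_num; omega)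
  · rw [Icc13]
    intro j hj
    simp only [mem_insert, mem_singleton] at hj
    rcases hj with rfl | rfl | rfl <;> simp [tri, *]

theorem tri_order (r : Fin 9 → Fin 9 → Prop) [IsStrictTotalOrder (Fin 9) r] (a b c : Fin 9)
    (hab : 0 < B0 a b) (hbc : 0 < B0 b c) (hca : 0 < B0 c a)
    (h : Odd ((Icc 1 (4 - 1)).filter
      (fun j => 0 < gim B0 r (tri a b c j) (tri a b c (j + 1)))).card) :
    (r a c ∧ r c b) ∨ (r b a ∧ r a c) ∨ (r c b ∧ r b a) := by
  have h0 : ∀ x, B0 x x = 0 := by decide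
  have nab : a ≠ b := by rintro rfl; simp [h0] at hab
  have nbc : b ≠ c := by rintro rfl; simp [h0] at hbc
  have nca : c ≠ a := by rintro rfl; simp [h0] at hca
  have key : ∀ x y : Fin 9, x ≠ y → 0 < B0 x y → (0 < gim B0 r x y ↔ r x y) := by
    intro x y hxy hB
    unfold gim
    by_cases hr : r x y
    · simp [hr, hB]
    · simp [hr, hxy, hB.le]
  have tot : ∀ x y : Fin 9, x ≠ y → ¬ r x y → r y x := by
    intro x y hxy hr
    rcases trichotomous_of r x y with h | h | h
    · exact absurd h hr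
    · exact absurd h hxy
    · exact h
  rw [Icc13, card_filter] at h
  have e1 : (0 < gim B0 r (tri a b c 1) (tri a b c (1 + 1))) ↔ r a b := by
    simpa [tri] using key a b nab hab
  have e2 : (0 < gim B0 r (tri a b c 2) (tri a b c (2 + 1))) ↔ r b c := by
    simpa [tri] using key b c nbc hbc
  have e3 : (0 < gim B0 r (tri a b c 3) (tri a b c (3 + 1))) ↔ r c a := by
    simpa [tri] using key c a nca hca
  rw [sum_insert (by decide), sum_insert (by decide), sum_singleton] at h
  by_cases h1 : r a b <;> by_cases h2 : r b c <;> by_cases h3 : r c a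
  · exact absurd (trans_of r (trans_of r h1 h2) h3) (irrefl_of r a)
  · rw [if_pos (e1.2 h1), if_pos (e2.2 h2), if_neg (fun x => h3 (e3.1 x))] at h
    exact absurd h (by decide)
  · rw [if_pos (e1.2 h1), if_neg (fun x => h2 (e2.1 x)), if_pos (e3.2 h3)] at h
    exact absurd h (by decide)
  · exact Or.inl ⟨tot c a nca h3, tot b c nbc h2⟩
  · rw [if_neg (fun x => h1 (e1.1 x)), if_pos (e2.2 h2), if_pos (e3.2 h3)] at h
    exact absurd h (by decide)
  · exact Or.inr (Or.inl ⟨tot a b nab h1, tot c a nca h3⟩)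
  · exact Or.inr (Or.inr ⟨tot b c nbc h2, tot a b nab h1⟩)
  · exact absurd (trans_of r (trans_of r (tot c a nca h3) (tot b c nbc h2)) (tot a b nab h1))
      (irrefl_of r a)

/-- Q1 is false: not every skew-symmetrizable matrix has a linear ordering whose GIM has an odd
number of positive entries along every oriented chordless cycle. -/
theorem result :
    ¬ ∀ n : ℕ, 1 ≤ n → ∀ B : Matrix (Fin n) (Fin n) ℤ, SkewSymmetrizable B →
      ∃ r : Fin n → Fin n → Prop, IsStrictTotalOrder (Fin n) r ∧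
        ∀ (d : ℕ) (i : ℕ → Fin n), ChordlessCycle B d i → Oriented B d i →
          Odd ((Icc 1 (d - 1)).filter (fun j => 0 < gim B r (i j) (i (j + 1)))).card := by
  intro H
  obtain ⟨r, hr, h⟩ := H 9 (by norm_num) B0 ⟨fun _ => 1, fun _ => one_pos, by
    ext i j
    simp [Matrix.transpose_apply, B0_skew i j]⟩
  classical
  let p : Fin 9 → ℕ := fun x => (univ.filter (fun y => r y x)).card
  have hp : ∀ x y, r x y → p x < p y := by
    intro x y hxy
    apply card_lt_card
    rw [ssubset_iff_of_subset]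
    · exact ⟨x, by simp [hxy], by simp [irrefl_of r x]⟩
    · intro z hz
      simp only [mem_filter, mem_univ, true_and] at hz ⊢
      exact trans_of r hz hxy
  have T : ∀ a b c : Fin 9, 0 < B0 a b → 0 < B0 b c → 0 < B0 c a →
      (p a < p c ∧ p c < p b) ∨ (p b < p a ∧ p a < p c) ∨ (p c < p b ∧ p b < p a) := by
    intro a b c hab hbc hca
    obtain ⟨h1, h2⟩ := tri_cycle a b c hab hbc hca
    rcases tri_order r a b c hab hbc hca (h 4 _ h1 h2) with h | h | h
    · exact Or.inl ⟨hp _ _ h.1, hp _ _ h.2⟩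
    · exact Or.inr (Or.inl ⟨hp _ _ h.1, hp _ _ h.2⟩)
    · exact Or.inr (Or.inr ⟨hp _ _ h.1, hp _ _ h.2⟩)
  exact Pool.Agent.Lib.MP_f0f309_al.core (p 0) (p 1) (p 2) (p 3) (p 4) (p 5) (p 6) (p 7) (p 8)
    (T 0 3 1 (by decide) (by decide) (by decide)) (T 0 3 8 (by decide) (by decide) (by decide))
    (T 0 5 7 (by decide) (by decide) (by decide)) (T 0 6 7 (by decide) (by decide) (by decide))
    (T 1 2 5 (by decide) (by decide) (by decide)) (T 1 2 7 (by decide) (by decide) (by decide))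
    (T 1 6 4 (by decide) (by decide) (by decide)) (T 1 8 4 (by decide) (by decide) (by decide))
    (T 1 8 5 (by decide) (by decide) (by decide)) (T 2 3 6 (by decide) (by decide) (by decide))
    (T 2 3 8 (by decide) (by decide) (by decide)) (T 2 7 8 (by decide) (by decide) (by decide))
    (T 3 7 4 (by decide) (by decide) (by decide)) (T 3 8 4 (by decide) (by decide) (by decide))
    (T 4 5 6 (by decide) (by decide) (by decide)) (T 5 6 8 (by decide) (by decide) (by decide))
    (T 5 7 8 (by decide) (by decide) (by decide))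

end Pool.Agent.Results.MP_f0f309_al.NoOrdering
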